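import Pool.Agent.Y198.EX.Stm

set_option autoImplicit false

namespace Pool.Agent.Y555.EX
open TensorProduct

universe v

/-- the `p`-th powers of linearly independent elements are linearly independent -/
lemma li_pow (p : ℕ) (hp : p.Prime) {R S : Type} [CommRing R] [IsDomain R] [CommRing S]
    [Algebra R S] (ER : R → R) (ES : S → S) (hinj : Function.Injective (algebraMap R S))
    (hadd : ∀ a b, ES (a + b) = ES a + ES b) (hmul : ∀ a b, ES (a ^ p * b) = a * ES b)
    (hER : ∀ r, ES (algebraMap R S r) = algebraMap R S (ER r)) (hne : ∃ r, ER r ≠ 0)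
    {ι : Type*} (v : ι → S) (hv : LinearIndependent R v) :
    LinearIndependent R (fun i => v i ^ p) := by
  classical
  have h0 : ES 0 = 0 := by
    have := hadd 0 0
    rw [add_zero] at this
    simpa using this
  have hsum : ∀ (F : Finset ι) (f : ι → S), ES (∑ i ∈ F, f i) = ∑ i ∈ F, ES (f i) := by
    intro F f
    induction F using Finset.induction_on with
    | empty => simpa using h0
    | insert a s ha ih => rw [Finset.sum_insert ha, Finset.sum_insert ha, hadd, ih]
  have hERm : ∀ g y, ER (g ^ p * y) = g * ER y := by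
    intro g y
    apply hinj
    rw [← hER, map_mul, map_pow, hmul, hER, map_mul]
  obtain ⟨y, hy⟩ := hne
  rw [linearIndependent_iff']
  intro F g hg i0 hi0
  by_contra hgi
  have h1 : ∑ i ∈ F, ER (y * g i0 ^ (p - 1) * g i) • v i = 0 := by
    calc ∑ i ∈ F, ER (y * g i0 ^ (p - 1) * g i) • v i
        = ∑ i ∈ F, ES ((y * g i0 ^ (p - 1)) • (g i • v i ^ p)) := by
          refine Finset.sum_congr rfl fun i _ => ?_
          rw [smul_smul, Algebra.smul_def, Algebra.smul_def, mul_comm _ (v i ^ p), hmul, hER,
            mul_comm]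
      _ = ES (∑ i ∈ F, (y * g i0 ^ (p - 1)) • (g i • v i ^ p)) := (hsum _ _).symm
      _ = 0 := by rw [← Finset.smul_sum, hg, smul_zero, h0]
  have h2 := linearIndependent_iff'.1 hv F _ h1 i0 hi0
  have h3 : y * g i0 ^ (p - 1) * g i0 = g i0 ^ p * y := by
    rw [mul_assoc, ← pow_succ, Nat.sub_add_cancel hp.one_lt.le, mul_comm]
  rw [h3, hERm] at h2
  exact mul_ne_zero hgi hy h2

/-- flatness -/
lemma flat_of {R : Type} {K' : Type v} [CommRing R] [IsDomain R] [Field K'] [Algebra R K']
    (h : Function.Injective (algebraMap R K')) : Module.Flat R K' := by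
  have h1 : FaithfulSMul R K' := (faithfulSMul_iff_algebraMap_injective R K').2 h
  let _ := FractionRing.liftAlgebra R K'
  have h2 := FractionRing.isScalarTower_liftAlgebra R K'
  have h3 : Module.Flat R (FractionRing R) := IsLocalization.flat _ (nonZeroDivisors R)
  exact Module.Flat.trans R (FractionRing R) K'

/-- coefficients -/
lemma coeff_zero {R S : Type} {K' : Type v} [CommRing R] [CommRing S] [Algebra R S]
    [Field K'] [Algebra R K'] [Module.Flat R K'] {ι : Type*} (v : ι → S)
    (hv : LinearIndependent R v) (c : ι →₀ K')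
    (h : c.sum (fun i k => k ⊗ₜ[R] v i) = 0) : c = 0 := by
  classical
  let f : (ι →₀ R) →ₗ[R] S := Finsupp.linearCombination R v
  have hf : Function.Injective (LinearMap.lTensor K' f) :=
    Module.Flat.lTensor_preserves_injective_linearMap f hv
  let t : K' ⊗[R] (ι →₀ R) := (TensorProduct.finsuppScalarRight R R K' ι).symm c
  have ht : t = c.sum (fun i k => k ⊗ₜ[R] Finsupp.single i 1) := by
    show (TensorProduct.finsuppScalarRight R R K' ι).symm c = _
    conv_lhs => rw [← Finsupp.sum_single c]
    rw [Finsupp.sum, map_sum]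
    refine Finset.sum_congr rfl fun i _ => ?_
    rw [TensorProduct.finsuppScalarRight_symm_apply_single]
  have h1 : LinearMap.lTensor K' f t = 0 := by
    rw [ht, Finsupp.sum, map_sum, ← h]
    refine Finset.sum_congr rfl fun i _ => ?_
    rw [LinearMap.lTensor_tmul]
    congr 1
    show Finsupp.linearCombination R v _ = _
    rw [Finsupp.linearCombination_single, one_smul]
  have h2 : t = 0 := hf (by rw [h1, map_zero])
  have h3 : c = (TensorProduct.finsuppScalarRight R R K' ι) t := by simp [t]
  rw [h3, h2, map_zero]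

theorem main (p : ℕ) [Fact p.Prime] (R S : Type) (K' : Type v) [CommRing R] [IsDomain R]
    [CommRing S] [IsDomain S] [CharP S p] [Algebra R S] [Field K'] [Algebra R K'] (ER : R → R)
    (ES : S → S) (hRS : Function.Injective (algebraMap R S))
    (hRK : Function.Injective (algebraMap R K'))
    (hadd : ∀ a b, ES (a + b) = ES a + ES b) (hmul : ∀ a b, ES (a ^ p * b) = a * ES b)
    (hER : ∀ r, ES (algebraMap R S r) = algebraMap R S (ER r)) (hne : ∃ r, ER r ≠ 0) :
    IsReduced (K' ⊗[R] S) := by
  classical
  have hp : p.Prime := Fact.out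
  have hflat := flat_of hRK
  rcases subsingleton_or_nontrivial (K' ⊗[R] S) with hsub | hnt
  · exact ⟨fun x _ => Subsingleton.elim _ _⟩
  have hcR : CharP R p := (RingHom.charP_iff (algebraMap R S) hRS p).2 inferInstance
  have hcK : CharP K' p := (RingHom.charP_iff (algebraMap R K') hRK p).1 hcR
  have hcT : CharP (K' ⊗[R] S) p :=
    (RingHom.charP_iff (algebraMap K' (K' ⊗[R] S)) (algebraMap K' (K' ⊗[R] S)).injective p).1 hcK
  obtain ⟨T, hT1, hT2⟩ := exists_maximal_linearIndepOn R (id : S → S)
  -- the elements `1 ⊗ s`, `s ∈ T`, span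
  set M : Submodule K' (K' ⊗[R] S) :=
    Submodule.span K' (Set.range fun s : T => (1 : K') ⊗ₜ[R] (s : S)) with hM
  have hspan : ∀ s ∈ Submodule.span R T, (1 : K') ⊗ₜ[R] s ∈ M := by
    intro s hs
    induction hs using Submodule.span_induction with
    | mem x hx => exact Submodule.subset_span ⟨⟨x, hx⟩, rfl⟩
    | zero => rw [TensorProduct.tmul_zero]; exact M.zero_mem
    | add x y _ _ h1 h2 => rw [TensorProduct.tmul_add]; exact M.add_mem h1 h2
    | smul r x _ h1 =>
      rw [← TensorProduct.smul_tmul, Algebra.smul_def, mul_one]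
      have h2 := M.smul_mem (algebraMap R K' r) h1
      rwa [TensorProduct.smul_tmul', smul_eq_mul, mul_one] at h2
  have hall : ∀ s : S, (1 : K') ⊗ₜ[R] s ∈ M := by
    intro s
    by_cases hs : s ∈ T
    · exact hspan s (Submodule.subset_span hs)
    · obtain ⟨a, ha, has⟩ := hT2 s hs
      rw [Set.image_id, id] at has
      have h1 := hspan _ has
      have ha' : algebraMap R K' a ≠ 0 := fun h => ha (hRK (by rw [h, map_zero]))
      have h2 := M.smul_mem (algebraMap R K' a)⁻¹ h1
      rw [← TensorProduct.smul_tmul, TensorProduct.smul_tmul', smul_eq_mul,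
        Algebra.smul_def a (1 : K'), mul_one, inv_mul_cancel₀ ha'] at h2
      exact h2
  have htop : ∀ x : K' ⊗[R] S, x ∈ M := by
    intro x
    induction x with
    | zero => exact M.zero_mem
    | tmul k s =>
      have h1 := M.smul_mem k (hall s)
      rwa [TensorProduct.smul_tmul', smul_eq_mul, mul_one] at h1
    | add x y h1 h2 => exact M.add_mem h1 h2
  rw [isReduced_iff_pow_one_lt p hp.one_lt]
  intro x hx
  obtain ⟨c, hc⟩ := (Finsupp.mem_span_range_iff_exists_finsupp).1 (htop x)
  have hli : LinearIndependent R (fun s : T => (s : S) ^ p) :=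
    li_pow p hp ER ES hRS hadd hmul hER hne _ hT1
  have h1 : (c.mapRange (fun k => k ^ p) (zero_pow hp.ne_zero)).sum
      (fun (s : T) k => k ⊗ₜ[R] ((s : S) ^ p)) = 0 := by
    rw [Finsupp.sum_mapRange_index (by intro s; rw [TensorProduct.zero_tmul]), ← hx, ← hc,
      Finsupp.sum, Finsupp.sum, sum_pow_char p]
    refine Finset.sum_congr rfl fun s _ => ?_
    rw [TensorProduct.smul_tmul', smul_eq_mul, mul_one, Algebra.TensorProduct.tmul_pow]
  have h2 := coeff_zero _ hli _ h1
  have h3 : c = 0 := by
    ext s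
    have h4 := congrArg (fun f => f s) h2
    simp only [Finsupp.mapRange_apply, Finsupp.coe_zero, Pi.zero_apply] at h4
    exact pow_eq_zero_iff hp.ne_zero |>.1 h4
  rw [← hc, h3, Finsupp.sum_zero_index]

theorem t : Pool.Agent.Y198.EX.stmA.{v} := by
  intro p _ R S K' _ _ _ _ _ _ _ _ ER ES h1 h2 h3 h4 h5 h6
  exact main p R S K' ER ES h1 h2 h3 h4 h5 h6

end Pool.Agent.Y555.EX
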